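import Pool.Agent.helper67.DL.SpecG

/-!
# Module BF: same Hitchin fibre
-/

set_option autoImplicit false

namespace Pool.Agent.DL

open Matrix Complex
open scoped ComplexOrder Manifold ContDiff

noncomputable section

theorem BF_cp1 (s q : ℂ) : (!![s, q, 0; 1, s, 0; 0, 0, -2 * s] : Matrix (Fin 3) (Fin 3) ℂ).charpoly =
    Polynomial.X ^ 3 - Polynomial.C (3 * s ^ 2 + q) * Polynomial.X -
      Polynomial.C (-2 * s * (s ^ 2 - q)) := by
  rw [Matrix.charpoly, Matrix.det_fin_three]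
  simp only [Matrix.charmatrix_apply]
  simp
  have h2 : (Polynomial.C 2 : Polynomial ℂ) = 2 := rfl
  have h3 : (Polynomial.C 3 : Polynomial ℂ) = 3 := rfl
  rw [h2, h3]
  ring

theorem BF_cp2 (r a b : ℂ) : (r • !![0, 0, b; 1, 0, a; 0, 1, 0] : Matrix (Fin 3) (Fin 3) ℂ).charpoly =
    Polynomial.X ^ 3 - Polynomial.C (a * r ^ 2) * Polynomial.X - Polynomial.C (b * r ^ 3) := by
  rw [Matrix.charpoly, Matrix.det_fin_three]
  simp only [Matrix.charmatrix_apply]
  simp
  ring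

theorem BF (hEX : EX_stmt) : BF_stmt := by
  intro X _ _ D hD a t ha ht
  obtain ⟨hC, -, -, -, -, -, -, -, -, -, -, hq⟩ := hEX X D hD a t ha ht
  rintro i k x ⟨hi, hk⟩
  obtain ⟨h2, h3⟩ := hq i x hi
  have hkne := hC.2.2.2 k x hk
  have hine := hC.2.2.2 i x hi
  have e2 : quo (q2F D a t) ((cov D a).η k) 2 x * quo ((cov D a).η k) ((cov D a).η i) 1 x ^ 2 =
      quo (q2F D a t) ((cov D a).η i) 2 x := by
    unfold quo
    field_simp
  have e3 : quo (q3F D a t) ((cov D a).η k) 3 x * quo ((cov D a).η k) ((cov D a).η i) 1 x ^ 3 =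
      quo (q3F D a t) ((cov D a).η i) 3 x := by
    unfold quo
    field_simp
  have l1 : ((BB D a t).A i x).charpoly = _ := BF_cp1 (quo (sF D a t) ((cov D a).η i) 1 x)
    (quo (qF D a t) ((cov D a).η i) 2 x)
  have l2 : (quo ((cov D a).η k) ((cov D a).η i) 1 x •
      (hitchin3 (cov D a) (q2F D a t) (q3F D a t)).A k x).charpoly = _ :=
    BF_cp2 (quo ((cov D a).η k) ((cov D a).η i) 1 x) (quo (q2F D a t) ((cov D a).η k) 2 x)
      (quo (q3F D a t) ((cov D a).η k) 3 x)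
  rw [e2, e3, h2, h3] at l2
  exact l1.trans l2.symm

end

end Pool.Agent.DL
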