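import Pool.Agent.helper67.DL.SpecL

/-!
# Module FB: a priori bound
-/

set_option autoImplicit false

namespace Pool.Agent.DL

open Matrix Complex
open scoped ComplexOrder

noncomputable section

theorem FB_neg (H X : Matrix (Fin 3) (Fin 3) ℂ) : nn H (-X) = nn H X := by
  simp [nn, nn2]

theorem FB (hWL : WL_stmt) (hM1 : M1_stmt) (hFE : FE_stmt) (hAH : AH_stmt) (hFA : FA_stmt) :
    FB_stmt := by
  intro t R W H ht hW hLH z₁ hz₁
  have hR : 0 ≤ R := le_trans (norm_nonneg _) hz₁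
  have ht0 : t ≠ 0 := by linarith
  have hA : HM (Metric.ball 0 (R + 2)) (AA t) := fun a b =>
    ((hFA t 0 ht0).2.2.2.2.2.2.2.1 a b).mono (Set.subset_univ _)
  have hne : ∀ z ∈ Metric.ball (0 : ℂ) (R + 2), AA t z ≠ 0 := by
    intro z _ h
    have h1 := congrFun (congrFun h 1) 0
    simp [AA] at h1
  obtain ⟨hpos, hsm, hlap⟩ := hWL 3 (Metric.ball 0 (R + 2)) W (AA t) H (AA t) Metric.isOpen_ball
    hA hA hLH (fun _ _ => rfl) hne
  have hsub : ∀ z ∈ Metric.closedBall z₁ 1, z ∈ Metric.ball (0 : ℂ) (R + 2) := by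
    intro z hz
    rw [mem_closedBall_iff_norm] at hz
    rw [mem_ball_zero_iff]
    have h2 : ‖z‖ ≤ ‖z - z₁‖ + ‖z₁‖ := by
      simpa using norm_add_le (z - z₁) z₁
    linarith
  have hfin := hAH (fun z => nn (H z) (AA t z)) z₁ (9 * t ^ 2 * (1 + ‖z₁‖ ^ 2)) (by positivity)
    (fun z hz => ⟨hsm.contDiffAt (Metric.isOpen_ball.mem_nhds (hsub z hz)), hpos z (hsub z hz)⟩) ?_
  · refine hfin.trans (max_le ?_ ?_)
    · nlinarith [sq_nonneg ‖z₁‖, mul_nonneg (sq_nonneg t) (sq_nonneg ‖z₁‖)]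
    · nlinarith [sq_nonneg ‖z₁‖, mul_nonneg (sq_nonneg t) (sq_nonneg ‖z₁‖), sq_nonneg t]
  · intro z hz hle
    have hzb := hsub z (Metric.ball_subset_closedBall hz)
    refine le_trans ?_ (hlap z hzb)
    have hf := hpos z hzb
    obtain ⟨l, hl, hls⟩ := hFE t z
    obtain ⟨h3, h4⟩ := hM1 (H z) (AA t z) l (hLH.pos z hzb) hl
    have hnz : ‖z‖ ≤ ‖z₁‖ + 1 := by
      rw [mem_ball_iff_norm] at hz
      have h2 : ‖z‖ ≤ ‖z - z₁‖ + ‖z₁‖ := by
        simpa using norm_add_le (z - z₁) z₁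
      linarith
    have hnz2 : ‖z‖ ^ 2 ≤ 2 * ‖z₁‖ ^ 2 + 2 := by
      nlinarith [norm_nonneg z, norm_nonneg z₁, sq_nonneg (‖z₁‖ - 1)]
    have hS : ∑ i, ‖l i‖ ^ 2 ≤ 9 * t ^ 2 * (1 + ‖z₁‖ ^ 2) := by
      refine hls.trans ?_
      have h5 : 0 ≤ t ^ 2 := sq_nonneg t
      nlinarith [mul_nonneg h5 (sq_nonneg ‖z₁‖), mul_le_mul_of_nonneg_left hnz2 h5]
    have hcomm : nn (H z) (adj (H z) (AA t z) * AA t z - AA t z * adj (H z) (AA t z)) =
        nn (H z) (AA t z * adj (H z) (AA t z) - adj (H z) (AA t z) * AA t z) := by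
      rw [← FB_neg, neg_sub]
    rw [hcomm]
    have h6 : (nn (H z) (AA t z)) ^ 2 / 8 ≤
        nn (H z) (AA t z * adj (H z) (AA t z) - adj (H z) (AA t z) * AA t z) := by
      refine le_trans ?_ h4
      have h7 : nn (H z) (AA t z) / 2 ≤ nn (H z) (AA t z) - ∑ i, ‖l i‖ ^ 2 := by
        have h8 : 2 * (9 * t ^ 2 * (1 + ‖z₁‖ ^ 2)) ≤ nn (H z) (AA t z) := hle
        linarith
      nlinarith
    rw [le_div_iff₀ hf]
    have h9 := (hW z hzb).1
    change nn (H z) (AA t z) / 16 * nn (H z) (AA t z) ≤ _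
    have h10 : 0 ≤ (nn (H z) (AA t z)) ^ 2 / 8 := by positivity
    calc nn (H z) (AA t z) / 16 * nn (H z) (AA t z) = 1 / 2 * ((nn (H z) (AA t z)) ^ 2 / 8) := by
          ring
      _ ≤ W z * ((nn (H z) (AA t z)) ^ 2 / 8) := mul_le_mul_of_nonneg_right h9 h10
      _ ≤ _ := mul_le_mul_of_nonneg_left h6 (by linarith)

end

end Pool.Agent.DL
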